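import Pool.Agent.TH381.RM.Defs
import Pool.Agent.TH381.Dg.Blocks

/-!
The rows of a row marker dgsm.
-/

set_option autoImplicit false

namespace Pool.Agent.TH381.RM

open Pool.Agent.H584R2.Dg Pool.Agent.W614.Dg Pool.Agent.TH381.Dg

variable {S : Type} {τ : Dgsm S} {a h : S}

theorem run_marker (hr : RowMarker τ a h) (q q' : τ.Q) (v : List S) :
    τ.run q (h :: v) = τ.run q' (h :: v) := by
  simp only [Dgsm.run]
  rw [hr.out q q', hr.next q q']

theorem rows (hr : RowMarker τ a h) (u : List S) (l : ℕ) :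
    (cb τ (τ.next τ.init a) (h :: u) l).2 = τ.map^[l] (h :: u) ∧
      ∃ v, τ.map^[l] (h :: u) = h :: v := by
  induction l with
  | zero => exact ⟨rfl, u, rfl⟩
  | succ l ih =>
    obtain ⟨h1, v, h2⟩ := ih
    constructor
    · rw [Function.iterate_succ_apply', ← h1]
      show τ.run (cb τ (τ.next τ.init a) (h :: u) l).1 (cb τ (τ.next τ.init a) (h :: u) l).2 =
        τ.run τ.init _
      rw [h1, h2]
      exact run_marker hr _ _ _
    · rw [Function.iterate_succ_apply', h2]
      obtain ⟨v', hv'⟩ := hr.marker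
      refine ⟨v' ++ τ.run (τ.next τ.init h) v, ?_⟩
      simp [Dgsm.map, Dgsm.run, hv']

/-- The words `τ^n(a)` are extended by the rows. -/
theorem map_succ (hr : RowMarker τ a h) {u : List S} (hu : τ.out τ.init a = a :: h :: u) (l : ℕ) :
    τ.map^[l + 1] [a] = τ.map^[l] [a] ++ τ.map^[l] (h :: u) := by
  rw [(map_iter hu l).1, (rows hr u l).1]

theorem row_mono (hne : τ.NonErasing) (v : List S) (l : ℕ) :
    (τ.map^[l] v).length ≤ (τ.map^[l + 1] v).length := by
  rw [Function.iterate_succ_apply']
  exact run_length hne _ _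

theorem row_pos (hne : τ.NonErasing) (h : S) (v : List S) (l : ℕ) :
    1 ≤ (τ.map^[l] (h :: v)).length := by
  induction l with
  | zero => simp
  | succ l ih => exact ih.trans (row_mono hne _ _)

theorem run_le {K : ℕ} (hK : ∀ q x, (τ.out q x).length ≤ K) (q : τ.Q) (v : List S) :
    (τ.run q v).length ≤ K * v.length := by
  induction v generalizing q with
  | nil => simp [Dgsm.run]
  | cons x v ih =>
    simp only [Dgsm.run, List.length_append, List.length_cons]
    have h1 := hK q x
    have h2 := ih (τ.next q x)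
    nlinarith

theorem row_le {K : ℕ} (hK : ∀ q x, (τ.out q x).length ≤ K) (v : List S) (l : ℕ) :
    (τ.map^[l + 1] v).length ≤ K * (τ.map^[l] v).length := by
  rw [Function.iterate_succ_apply']
  exact run_le hK _ _

/-- The positions of the letters in the rows. -/
def pos (D : ℕ → ℕ) : ℕ → ℕ × ℕ
  | 0 => (0, 0)
  | n + 1 => if (pos D n).2 + 1 < D (pos D n).1 then ((pos D n).1, (pos D n).2 + 1)
    else ((pos D n).1 + 1, 0)

theorem pos_spec {D : ℕ → ℕ} (hD : ∀ l, 1 ≤ D l) {N : ℕ → ℕ} (h0 : N 0 = 1)
    (hN : ∀ l, N (l + 1) = N l + D l) (n : ℕ) :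
    (pos D n).2 < D (pos D n).1 ∧ n + 1 = N (pos D n).1 + (pos D n).2 := by
  induction n with
  | zero => exact ⟨hD 0, by simp [pos, h0]⟩
  | succ n ih =>
    unfold pos
    by_cases hc : (pos D n).2 + 1 < D (pos D n).1
    · rw [if_pos hc]
      exact ⟨hc, by simp only; omega⟩
    · rw [if_neg hc]
      refine ⟨hD _, ?_⟩
      have := hN (pos D n).1
      simp only
      omega

/-- The letters of the limit word are the letters of the rows. -/
theorem word_pos (hne : τ.NonErasing) (hr : RowMarker τ a h) {u : List S}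
    (hu : τ.out τ.init a = a :: h :: u) {w : ℕ → S} (hw : τ.IsLimit a w) (n : ℕ) :
    let D := fun l => (τ.map^[l] (h :: u)).length
    (pos D n).2 < D (pos D n).1 ∧
    (τ.map^[(pos D n).1] (h :: u))[(pos D n).2]? = some (w (n + 1)) ∧
    n + 1 = (τ.map^[(pos D n).1] [a]).length + (pos D n).2 := by
  intro D
  have hs := pos_spec (D := D) (N := fun l => (τ.map^[l] [a]).length)
    (fun l => row_pos hne h u l) rfl (by
      intro l
      show (τ.map^[l + 1] [a]).length = _
      rw [map_succ hr hu, List.length_append]) n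
  refine ⟨hs.1, ?_, hs.2⟩
  have h1 := hw.2.2 ((pos D n).1 + 1)
  rw [map_succ hr hu] at h1
  have h2 := hs.1
  have h4 : n + 1 < (τ.map^[(pos D n).1] [a] ++ τ.map^[(pos D n).1] (h :: u)).length := by
    rw [List.length_append]
    have := hs.2
    show n + 1 < (τ.map^[(pos D n).1] [a]).length + D (pos D n).1
    omega
  have h3 := h1 (n + 1) h4
  rw [List.getElem?_eq_getElem hs.1, ← h3]
  congr 1
  rw [List.getElem_append_right (by have := hs.2; omega)]
  congr 1
  have := hs.2
  omega

theorem word_zero {w : ℕ → S} (hw : τ.IsLimit a w) : w 0 = a := by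
  have := hw.2.2 0 0 (by simp)
  simpa using this.symm

end Pool.Agent.TH381.RM
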