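import Pool.Agent.TH381.RM.Fun
import Pool.Agent.TH381.RM.Rows

/-!
The iterated functions give the letters of the word, and the numbers remain small.
-/

set_option autoImplicit false

namespace Pool.Agent.TH381.RM

open Pool.Agent.H584R2.Dg Pool.Agent.W614.Dg Pool.Agent.H539R2 Pool.Agent.TH381.Dg

theorem TT_lt (K l D : ℕ) : TT K l D < BB K l D * BB K l D := Nat.lt_succ_sqrt _

theorem BB_next (K l D D' : ℕ) (hK : 1 ≤ K) (h : D' ≤ K * D) :
    BB K (l + 1) D' ≤ (K + 1) * BB K l D := by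
  unfold BB
  have h1 : TT K (l + 1) D' ≤ (K + 1) * TT K l D := by
    unfold TT
    have h2 : 2 * K * D' ≤ 2 * K * (K * D) := Nat.mul_le_mul_left _ h
    nlinarith [Nat.zero_le (K * l), Nat.zero_le (K * D)]
  have h2 := Nat.lt_succ_sqrt (TT K l D)
  have h3 : Nat.sqrt (TT K (l + 1) D') < (K + 1) * (Nat.sqrt (TT K l D) + 1) := by
    rw [Nat.sqrt_lt]
    calc TT K (l + 1) D' ≤ (K + 1) * TT K l D := h1
      _ < (K + 1) * ((Nat.sqrt (TT K l D) + 1) * (Nat.sqrt (TT K l D) + 1)) :=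
        Nat.mul_lt_mul_of_pos_left h2 (by omega)
      _ ≤ (K + 1) * ((K + 1) * ((Nat.sqrt (TT K l D) + 1) * (Nat.sqrt (TT K l D) + 1))) :=
        Nat.mul_le_mul_left _ (Nat.le_mul_of_pos_left _ (by omega))
      _ = _ := by ring
  omega

theorem XX_next (q K B B' : ℕ) (h : B' ≤ (K + 1) * B) :
    XX q B' ≤ XX q B ^ ((K + 1) * (K + 2)) := by
  unfold XX
  have e1 : 48 * B' + 24 ≤ (48 * B + 24) ^ (K + 2) := by
    calc 48 * B' + 24 ≤ (K + 1) * (48 * B + 24) := by nlinarith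
      _ ≤ (48 * B + 24) ^ (K + 1) * (48 * B + 24) :=
        Nat.mul_le_mul_right _ (Nat.lt_pow_self (by omega)).le
      _ = _ := (pow_succ _ _).symm
  calc (48 * B' + 24) ^ (8 * q * B') ≤ ((48 * B + 24) ^ (K + 2)) ^ (8 * q * B') :=
        Nat.pow_le_pow_left e1 _
    _ ≤ ((48 * B + 24) ^ (K + 2)) ^ (8 * q * ((K + 1) * B)) :=
        Nat.pow_le_pow_right (by positivity) (Nat.mul_le_mul_left _ h)
    _ = _ := by rw [← pow_mul, ← pow_mul]; congr 1; ring

theorem sq_le_XX (q B : ℕ) (hq : 1 ≤ q) (hB : 1 ≤ B) : B * B ≤ XX q B := by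
  unfold XX
  calc B * B ≤ (48 * B + 24) * (48 * B + 24) := Nat.mul_le_mul (by omega) (by omega)
    _ = (48 * B + 24) ^ 2 := by ring
    _ ≤ _ := Nat.pow_le_pow_right (by omega) (by nlinarith)

/-- The length of the previous row. -/
def Dp {S : Type} (τ : Dgsm S) (R0 : List S) : ℕ → ℕ
  | 0 => 1
  | l + 1 => (τ.map^[l] R0).length

theorem pk_le (X l j D : ℕ) (hX : 1 ≤ X) (hl : l ≤ X) (hj : j ≤ X) (hD : D ≤ X) :
    Par.pk X l j D + 2 ≤ (X + 1) ^ 9 := by
  unfold Par.pk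
  have h1 := Nat.pair_lt_max_add_one_sq j D
  have h2 : Nat.pair j D + 1 ≤ (X + 1) ^ 2 := by
    refine Nat.succ_le_of_lt (h1.trans_le ?_)
    exact Nat.pow_le_pow_left (Nat.succ_le_succ (max_le hj hD)) _
  have h3 := Nat.pair_lt_max_add_one_sq l (Nat.pair j D)
  have hX2 : X + 1 ≤ (X + 1) ^ 2 := Nat.le_self_pow (by omega) _
  have h4 : Nat.pair l (Nat.pair j D) + 1 ≤ (X + 1) ^ 4 := by
    refine Nat.succ_le_of_lt (h3.trans_le ?_)
    have : max l (Nat.pair j D) + 1 ≤ (X + 1) ^ 2 := by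
      rcases max_cases l (Nat.pair j D) with h | h <;> omega
    calc _ ≤ ((X + 1) ^ 2) ^ 2 := Nat.pow_le_pow_left this _
      _ = _ := by rw [← pow_mul]
  have h5 := Nat.pair_lt_max_add_one_sq X (Nat.pair l (Nat.pair j D))
  have hX4 : X + 1 ≤ (X + 1) ^ 4 := Nat.le_self_pow (by omega) _
  have h6 : Nat.pair X (Nat.pair l (Nat.pair j D)) + 1 ≤ (X + 1) ^ 8 := by
    refine Nat.succ_le_of_lt (h5.trans_le ?_)
    have : max X (Nat.pair l (Nat.pair j D)) + 1 ≤ (X + 1) ^ 4 := by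
      rcases max_cases X (Nat.pair l (Nat.pair j D)) with h | h <;> omega
    calc _ ≤ ((X + 1) ^ 4) ^ 2 := Nat.pow_le_pow_left this _
      _ = _ := by rw [← pow_mul]
  have h7 : (X + 1) ^ 8 + 2 ≤ (X + 1) ^ 9 := by
    have : 2 ≤ (X + 1) ^ 8 := by
      calc 2 ≤ X + 1 := by omega
        _ ≤ _ := Nat.le_self_pow (by omega) _
    calc (X + 1) ^ 8 + 2 ≤ (X + 1) ^ 8 * 2 := by omega
      _ ≤ (X + 1) ^ 8 * (X + 1) := Nat.mul_le_mul_left _ (by omega)
      _ = _ := (pow_succ _ _).symm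
  omega

theorem map_range_isPre {S : Type} (w : ℕ → S) (t : ℕ) : IsPre ((List.range t).map w) w := by
  intro i hi
  simp

/-- The data for the machine. -/
theorem machine (hpipe : SPipe) {S : Type} [Finite S] (τ : Dgsm S) (a h : S) (w : ℕ → S)
    (hne : τ.NonErasing) (hw : τ.IsLimit a w) (hr : RowMarker τ a h) {u : List S}
    (hu : τ.out τ.init a = a :: h :: u) {K : ℕ} (hK1 : 1 ≤ K)
    (hK : ∀ q x, (τ.out q x).length ≤ K) (hKu : (h :: u).length ≤ K) :
    ∃ (F L : ℕ → ℕ) (N : ℕ) (e : ℕ → Option S) (q : ℕ), 1 ≤ q ∧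
      LS (fun ρ => F (ρ 0)) ∧ LS (fun ρ => L (ρ 0)) ∧ (∀ z, L z ≤ N) ∧
      (∀ n, e (L (F^[n] 0)) = some (w n)) ∧
      ∀ m, ∃ l j : ℕ, j < (τ.map^[l] (h :: u)).length ∧ m + 1 = (τ.map^[l] [a]).length + j ∧
        F^[m + 1] 0 = Par.pk (XX q (BB K l (Dp τ (h :: u) l))) l j (Dp τ (h :: u) l) := by
  classical
  obtain ⟨q, en, de, hen, hde⟩ := exists_code τ K
  obtain ⟨M, co, e, h0, h1, hco, he⟩ := exists_letters S
  have hM : 0 < M := by have := hco none; omega
  have hq : 0 < q := by have := hen none; omega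
  obtain ⟨St, hLS, hSt⟩ := sSim q (fun x y z => en (rule τ (de x) (de y) (de z)))
    (en (some (τ.init, h :: u))) (en none) (en (some (τ.init, []))) (hen _) (hen _) (hen _)
    (fun _ _ _ _ _ _ => hen _)
  obtain ⟨P, hP⟩ : ∃ P : Par, P = ⟨q, M, digs M q (fun s => co (buf (de s)).head?), K,
    (K + 1) * (K + 2), co (some a), Par.pk (XX q (BB K 0 1)) 0 0 1, St⟩ := ⟨_, rfl⟩
  have hPq : P.q = q := by rw [hP]
  have hPM : P.M = M := by rw [hP]
  have hPtab : P.tab = digs M q (fun s => co (buf (de s)).head?) := by rw [hP]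
  have hPK : P.K = K := by rw [hP]
  have hPc : P.c = (K + 1) * (K + 2) := by rw [hP]
  have hPcoa : P.coa = co (some a) := by rw [hP]
  have hPz : P.z1 = Par.pk (XX q (BB K 0 1)) 0 0 1 := by rw [hP]
  have hPSt : P.St = St := by rw [hP]
  have hLS' : LS (fun ρ => P.St (ρ 0) (ρ 1) (ρ 2) (ρ 3)) := by rw [hPSt]; exact hLS
  have hD1 : ∀ l, (τ.map^[l] (h :: u)).length ≤ K * Dp τ (h :: u) l := by
    intro l
    cases l with
    | zero => simpa [Dp] using hKu
    | succ l => exact row_le hK _ _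
  have hcell : ∀ l t i, (buf (cf τ (h :: u) l t i)).length ≤ K := by
    intro l
    exact (hpipe S τ (h :: u) l hne).2 K hKu hK
  have hhc : ∀ l t, t < TT K l (Dp τ (h :: u) l) →
      P.hc (XX q (BB K l (Dp τ (h :: u) l))) l (Dp τ (h :: u) l) t =
        co (buf (cf τ (h :: u) l t 0)).head? := by
    intro l t ht
    unfold Par.hc
    rw [hPM, hPtab, hPSt, hPK, hSt (XX q (BB K l (Dp τ (h :: u) l))) _ l t
      (by unfold BB; omega) (ht.trans (TT_lt _ _ _)) le_rfl, cn_eq hde (hcell l), dg_digs M q hM _ (fun _ _ => hco _) _ (hen _), hde _ (hcell l _ _)]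
  have hrow : ∀ l, (List.range (TT K l (Dp τ (h :: u) l))).filterMap
      (fun t => (buf (cf τ (h :: u) l t 0)).head?) = τ.map^[l] (h :: u) := by
    intro l
    apply (hpipe S τ (h :: u) l hne).1
    unfold TT
    have := hD1 l
    nlinarith
  have hcnt : ∀ l T, T ≤ TT K l (Dp τ (h :: u) l) →
      P.cnt (XX q (BB K l (Dp τ (h :: u) l))) l (Dp τ (h :: u) l) T =
        ∑ i ∈ Finset.range T, if co (buf (cf τ (h :: u) l i 0)).head? = 0 then 0 else 1 := by
    intro l T hT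
    unfold Par.cnt
    apply Finset.sum_congr rfl
    intro i hi
    rw [Finset.mem_range] at hi
    rw [hhc l i (by omega)]
  have hlen : ∀ l, P.cnt (XX q (BB K l (Dp τ (h :: u) l))) l (Dp τ (h :: u) l)
      (TT K l (Dp τ (h :: u) l)) = (τ.map^[l] (h :: u)).length := by
    intro l
    rw [hcnt l _ le_rfl, count_spec (fun t => (buf (cf τ (h :: u) l t 0)).head?) co h0 h1, hrow]
  have hltr : ∀ l j, P.ltr (XX q (BB K l (Dp τ (h :: u) l))) l (Dp τ (h :: u) l) j =
      co ((τ.map^[l] (h :: u))[j]?) := by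
    intro l j
    rw [← hrow l, ← letter_spec (fun t => (buf (cf τ (h :: u) l t 0)).head?) co h0 h1]
    unfold Par.ltr
    rw [hPK]
    apply Finset.sum_congr rfl
    intro t ht
    rw [Finset.mem_range] at ht
    rw [hhc l t ht, hcnt l t ht.le]
  have hnX : ∀ l, P.nX (XX q (BB K l (Dp τ (h :: u) l))) l (Dp τ (h :: u) (l + 1)) =
      XX q (BB K (l + 1) (Dp τ (h :: u) (l + 1))) := by
    intro l
    unfold Par.nX
    rw [hPc, hPK, hPq]
    exact powT_eq _ _ _ (by omega) (XX_next q K _ _ (BB_next K l _ _ hK1 (hD1 l)))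
  obtain ⟨D, hDdef⟩ : ∃ D : ℕ → ℕ, D = fun l => (τ.map^[l] (h :: u)).length := ⟨_, rfl⟩
  have hword := fun n => word_pos hne hr hu hw n
  rw [← hDdef] at hword
  have hit : ∀ m, P.FF^[m + 1] 0 = Par.pk (XX q (BB K (pos D m).1 (Dp τ (h :: u) (pos D m).1)))
      (pos D m).1 (pos D m).2 (Dp τ (h :: u) (pos D m).1) := by
    intro m
    induction m with
    | zero =>
      show P.FF 0 = _
      rw [Par.FF_zero, hPz]
      rfl
    | succ m ih =>
      rw [Function.iterate_succ_apply', ih, Par.FF_pk]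
      unfold Par.F0
      rw [hPK, hlen]
      have e1 : (τ.map^[(pos D m).1] (h :: u)).length = D (pos D m).1 := by rw [hDdef]
      rw [e1]
      have e2 : pos D (m + 1) = if (pos D m).2 + 1 < D (pos D m).1 then
        ((pos D m).1, (pos D m).2 + 1) else ((pos D m).1 + 1, 0) := rfl
      rw [e2]
      by_cases hc : (pos D m).2 + 1 < D (pos D m).1
      · rw [if_pos hc, if_pos hc]
      · rw [if_neg hc, if_neg hc]
        have e3 : D (pos D m).1 = Dp τ (h :: u) ((pos D m).1 + 1) := by rw [hDdef]; rfl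
        rw [e3, hnX]
  refine ⟨P.FF, P.LL, P.coa + P.M, e, q, hq, Par.LS_FF hLS', Par.LS_LL hLS', P.LL_le, ?_, ?_⟩
  · intro n
    cases n with
    | zero =>
      show e (P.LL 0) = _
      rw [Par.LL_zero, hPcoa, he, word_zero hw]
    | succ n =>
      rw [hit, Par.LL_pk, hltr, (hword n).2.1, min_eq_left, he]
      rw [hPM]
      exact (hco _).le
  · intro m
    refine ⟨(pos D m).1, (pos D m).2, ?_, (hword m).2.2, hit m⟩
    have := (hword m).1
    rw [hDdef] at this ⊢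
    exact this

end Pool.Agent.TH381.RM
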