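import Pool.Agent.TH381.RM.Defs

/-!
Coding of cells and letters by numbers, counting letters.
-/

set_option autoImplicit false

namespace Pool.Agent.TH381.RM

open Pool.Agent.H584R2.Dg Pool.Agent.W614.Dg Pool.Agent.H539R2

theorem exists_code {S : Type} [Finite S] (τ : Dgsm S) (K : ℕ) :
    ∃ (q : ℕ) (en : Cell τ → ℕ) (de : ℕ → Cell τ), (∀ x, en x < q) ∧
      (∀ x, (buf x).length ≤ K → de (en x) = x) := by
  classical
  have := τ.finQ
  have hA : {x : Cell τ | (buf x).length ≤ K}.Finite := by
    have h1 : (Set.univ ×ˢ {v : List S | v.length ≤ K} : Set (τ.Q × List S)).Finite :=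
      Set.finite_univ.prod (List.finite_length_le S K)
    refine ((h1.image some).insert none).subset ?_
    intro x hx
    rcases x with _ | ⟨q, v⟩
    · exact Set.mem_insert _ _
    · exact Set.mem_insert_of_mem _ ⟨(q, v), ⟨Set.mem_univ _, hx⟩, rfl⟩
  have := hA.to_subtype
  obtain ⟨n, ⟨e⟩⟩ := Finite.exists_equiv_fin {x : Cell τ | (buf x).length ≤ K}
  refine ⟨n + 1, fun x => if h : x ∈ {x : Cell τ | (buf x).length ≤ K} then (e ⟨x, h⟩ : ℕ) else 0,
    fun i => if h : i < n then (e.symm ⟨i, h⟩ : Cell τ) else none, ?_, ?_⟩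
  · intro x
    show (if h : x ∈ {x : Cell τ | (buf x).length ≤ K} then (e ⟨x, h⟩ : ℕ) else 0) < n + 1
    split_ifs with h
    · exact (e ⟨x, h⟩).isLt.trans (Nat.lt_succ_self n)
    · omega
  · intro x hx
    have hx' : x ∈ {x : Cell τ | (buf x).length ≤ K} := hx
    show (if h : (if h : x ∈ {x : Cell τ | (buf x).length ≤ K} then (e ⟨x, h⟩ : ℕ) else 0) < n then
      (e.symm ⟨_, h⟩ : Cell τ) else none) = x
    simp only [dif_pos hx']
    rw [dif_pos (e ⟨x, hx'⟩).isLt]
    simp

theorem cn_eq {S : Type} {τ : Dgsm S} {R0 : List S} {l K : ℕ} {en : Cell τ → ℕ}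
    {de : ℕ → Cell τ} (hde : ∀ x, (buf x).length ≤ K → de (en x) = x)
    (hb : ∀ t i, (buf (cf τ R0 l t i)).length ≤ K) (t : ℕ) : ∀ i,
    cn (fun x y z => en (rule τ (de x) (de y) (de z))) (en (some (τ.init, R0))) (en none)
      (en (some (τ.init, []))) l t i = en (cf τ R0 l t i) := by
  induction t with
  | zero =>
    intro i
    unfold cn cf
    split_ifs <;> rfl
  | succ t ih =>
    intro i
    unfold cn cf
    rw [ih, ih, ih, hde _ (hb _ _), hde _ (hb _ _), hde _ (hb _ _)]

theorem exists_letters (S : Type) [Finite S] :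
    ∃ (M : ℕ) (co : Option S → ℕ) (e : ℕ → Option S), co none = 0 ∧ (∀ x, co (some x) ≠ 0) ∧
      (∀ x, co x < M) ∧ ∀ x, e (co x) = x := by
  classical
  obtain ⟨n, ⟨e⟩⟩ := Finite.exists_equiv_fin S
  refine ⟨n + 1, fun x => match x with | none => 0 | some x => (e x : ℕ) + 1,
    fun i => match i with | 0 => none | i + 1 => if h : i < n then some (e.symm ⟨i, h⟩) else none,
    rfl, ?_, ?_, ?_⟩
  · intro x
    simp
  · intro x
    rcases x with _ | x
    · simp
    · have := (e x).isLt
      show (e x : ℕ) + 1 < n + 1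
      omega
  · intro x
    rcases x with _ | x
    · rfl
    · show (if h : (e x : ℕ) < n then some (e.symm ⟨_, h⟩) else none) = some x
      rw [dif_pos (e x).isLt]
      simp

theorem count_spec {S : Type} (g : ℕ → Option S) (co : Option S → ℕ) (h0 : co none = 0)
    (h1 : ∀ x, co (some x) ≠ 0) (T : ℕ) :
    (∑ t ∈ Finset.range T, if co (g t) = 0 then 0 else 1) =
      ((List.range T).filterMap g).length := by
  induction T with
  | zero => simp
  | succ T ih =>
    rw [Finset.sum_range_succ, ih, List.range_succ, List.filterMap_append, List.length_append]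
    congr 1
    rcases hg : g T with _ | x
    · simp [hg, h0]
    · simp [hg, h1]

theorem letter_spec {S : Type} (g : ℕ → Option S) (co : Option S → ℕ) (h0 : co none = 0)
    (h1 : ∀ x, co (some x) ≠ 0) (T j : ℕ) :
    (∑ t ∈ Finset.range T, if (co (g t) ≠ 0 ∧
      (∑ i ∈ Finset.range t, if co (g i) = 0 then 0 else 1) = j) then co (g t) else 0) =
      co (((List.range T).filterMap g)[j]?) := by
  induction T with
  | zero => simp [h0]
  | succ T ih =>
    rw [Finset.sum_range_succ, ih, List.range_succ, List.filterMap_append,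
      count_spec g co h0 h1]
    rcases hg : g T with _ | x
    · simp [hg, h0]
    · have e1 : List.filterMap g [T] = [x] := by simp [hg]
      rw [e1]
      by_cases hj : ((List.range T).filterMap g).length = j
      · rw [if_pos ⟨h1 x, hj⟩, List.getElem?_eq_none (by omega), h0, zero_add, ← hj]
        simp
      · rw [if_neg (by tauto), add_zero]
        by_cases hj2 : j < ((List.range T).filterMap g).length
        · rw [List.getElem?_append_left hj2]
        · rw [List.getElem?_eq_none (by omega), List.getElem?_eq_none (by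
            rw [List.length_append]; simp only [List.length_cons, List.length_nil]; omega)]

end Pool.Agent.TH381.RM
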