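import Pool.Agent.TH381.RM.SimS
import Pool.Agent.TH381.RM.Code

/-!
The functions iterated by the generating machine.
-/

set_option linter.unusedSimpArgs false
set_option linter.unusedVariables false
set_option autoImplicit false

namespace Pool.Agent.TH381.RM

open Pool.Agent.H539R2

theorem LS.pair {f g : (ℕ → ℕ) → ℕ} (hf : LS f) (hg : LS g) :
    LS (fun ρ => Nat.pair (f ρ) (g ρ)) := by
  have := LS.ite (LSP.lt hf hg) ((hg.mul hg).add hf) (((hf.mul hf).add hf).add hg)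
  apply this.congr
  intro ρ
  unfold Nat.pair
  rfl

/-- number of steps for a row -/
def TT (K l D : ℕ) : ℕ := 2 * K * D + l + 4

/-- block size -/
def BB (K l D : ℕ) : ℕ := Nat.sqrt (TT K l D) + 1

/-- size of the numbers -/
def XX (q B : ℕ) : ℕ := (48 * B + 24) ^ (8 * q * B)

/-- parameters of the machine -/
structure Par where
  q : ℕ
  M : ℕ
  tab : ℕ
  K : ℕ
  c : ℕ
  coa : ℕ
  z1 : ℕ
  St : ℕ → ℕ → ℕ → ℕ → ℕ

namespace Par

variable (P : Par)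

/-- code of the letter in front at the time `t` -/
def hc (X l D t : ℕ) : ℕ := dg P.M P.tab (P.St X (BB P.K l D) l t)

/-- number of letters in front before the time `T` -/
def cnt (X l D T : ℕ) : ℕ := ∑ i ∈ Finset.range T, if P.hc X l D i = 0 then 0 else 1

/-- code of the `j`-th letter of the row -/
def ltr (X l D j : ℕ) : ℕ := ∑ t ∈ Finset.range (TT P.K l D),
  if (P.hc X l D t ≠ 0 ∧ P.cnt X l D t = j) then P.hc X l D t else 0

/-- the next size -/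
def nX (X l D : ℕ) : ℕ :=
  powT (X ^ P.c) (48 * BB P.K (l + 1) D + 24) (8 * P.q * BB P.K (l + 1) D)

/-- the coded configurations -/
def pk (X l j D : ℕ) : ℕ := Nat.pair X (Nat.pair l (Nat.pair j D)) + 1

/-- one step, uncoded -/
def F0 (X l j D : ℕ) : ℕ :=
  if j + 1 < P.cnt X l D (TT P.K l D) then pk X l (j + 1) D
  else pk (P.nX X l (P.cnt X l D (TT P.K l D))) (l + 1) 0 (P.cnt X l D (TT P.K l D))

/-- one step -/
def FF (z : ℕ) : ℕ :=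
  if z = 0 then P.z1 else P.F0 (Nat.unpair (z - 1)).1 (Nat.unpair (Nat.unpair (z - 1)).2).1
    (Nat.unpair (Nat.unpair (Nat.unpair (z - 1)).2).2).1
    (Nat.unpair (Nat.unpair (Nat.unpair (z - 1)).2).2).2

/-- the letter -/
def LL (z : ℕ) : ℕ :=
  if z = 0 then P.coa else min (P.ltr (Nat.unpair (z - 1)).1 (Nat.unpair (Nat.unpair (z - 1)).2).1
    (Nat.unpair (Nat.unpair (Nat.unpair (z - 1)).2).2).2
    (Nat.unpair (Nat.unpair (Nat.unpair (z - 1)).2).2).1) P.M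

theorem FF_pk (X l j D : ℕ) : P.FF (pk X l j D) = P.F0 X l j D := by
  unfold FF pk
  simp

theorem LL_pk (X l j D : ℕ) : P.LL (pk X l j D) = min (P.ltr X l D j) P.M := by
  unfold LL pk
  simp

theorem FF_zero : P.FF 0 = P.z1 := rfl

theorem LL_zero : P.LL 0 = P.coa := rfl

theorem LL_le (z : ℕ) : P.LL z ≤ P.coa + P.M := by
  unfold LL
  split_ifs
  · omega
  · exact (min_le_right _ _).trans (by omega)

theorem LS_TT (K : ℕ) {l D : (ℕ → ℕ) → ℕ} (hl : LS l) (hD : LS D) :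
    LS (fun ρ => TT K (l ρ) (D ρ)) :=
  (((LS.const (2 * K)).mul hD).add hl).add (LS.const 4)

theorem LS_BB (K : ℕ) {l D : (ℕ → ℕ) → ℕ} (hl : LS l) (hD : LS D) :
    LS (fun ρ => BB K (l ρ) (D ρ)) :=
  (LS.sqrt (LS_TT K hl hD)).succ

variable {P} (hS : LS (fun ρ => P.St (ρ 0) (ρ 1) (ρ 2) (ρ 3)))
include hS

theorem LS_St {X B l t : (ℕ → ℕ) → ℕ} (hX : LS X) (hB : LS B) (hl : LS l) (ht : LS t) :
    LS (fun ρ => P.St (X ρ) (B ρ) (l ρ) (t ρ)) :=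
  LS.lett (f := fun ρ' => P.St (X (tl ρ')) (B (tl ρ')) (l (tl ρ')) (ρ' 0)) ht
    (LS.lett (f := fun ρ' => P.St (X (tl (tl ρ'))) (B (tl (tl ρ'))) (ρ' 0) (ρ' 1)) hl.wk
      (LS.lett (f := fun ρ' => P.St (X (tl (tl (tl ρ')))) (ρ' 0) (ρ' 1) (ρ' 2)) hB.wk.wk
        (LS.lett hX.wk.wk.wk hS)))

theorem LS_hc {X l D t : (ℕ → ℕ) → ℕ} (hX : LS X) (hl : LS l) (hD : LS D) (ht : LS t) :
    LS (fun ρ => P.hc (X ρ) (l ρ) (D ρ) (t ρ)) :=
  LS.dg (LS.const P.M) (LS.const P.tab) (LS_St hS hX (LS_BB P.K hl hD) hl ht)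

theorem LS_cnt {X l D T : (ℕ → ℕ) → ℕ} (hX : LS X) (hl : LS l) (hD : LS D) (hT : LS T) :
    LS (fun ρ => P.cnt (X ρ) (l ρ) (D ρ) (T ρ)) :=
  LS.sum (F := fun i ρ => if P.hc (X ρ) (l ρ) (D ρ) i = 0 then 0 else 1) hT
    (LS.ite (LSP.eq (LS_hc hS hX.wk hl.wk hD.wk (LS.var 0)) LS.zero) LS.zero (LS.const 1))

theorem LS_ltr {X l D j : (ℕ → ℕ) → ℕ} (hX : LS X) (hl : LS l) (hD : LS D) (hj : LS j) :
    LS (fun ρ => P.ltr (X ρ) (l ρ) (D ρ) (j ρ)) :=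
  LS.sum (F := fun t ρ => if (P.hc (X ρ) (l ρ) (D ρ) t ≠ 0 ∧ P.cnt (X ρ) (l ρ) (D ρ) t = j ρ) then
      P.hc (X ρ) (l ρ) (D ρ) t else 0) (LS_TT P.K hl hD)
    (LS.ite (LSP.and (LSP.not (LSP.eq (LS_hc hS hX.wk hl.wk hD.wk (LS.var 0)) LS.zero))
      (LSP.eq (LS_cnt hS hX.wk hl.wk hD.wk (LS.var 0)) hj.wk))
      (LS_hc hS hX.wk hl.wk hD.wk (LS.var 0)) LS.zero)

omit hS in
theorem LS_nX {X l D : (ℕ → ℕ) → ℕ} (hX : LS X) (hl : LS l) (hD : LS D) :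
    LS (fun ρ => P.nX (X ρ) (l ρ) (D ρ)) := by
  have hB := LS_BB P.K hl.succ hD
  exact LS.powT (ZZ.LS.powc hX P.c) (((LS.const 48).mul hB).add (LS.const 24))
    ((LS.const (8 * P.q)).mul hB)

omit hS in
theorem LS_pk {X l j D : (ℕ → ℕ) → ℕ} (hX : LS X) (hl : LS l) (hj : LS j) (hD : LS D) :
    LS (fun ρ => pk (X ρ) (l ρ) (j ρ) (D ρ)) :=
  (LS.pair hX (LS.pair hl (LS.pair hj hD))).succ

theorem LS_F0 {X l j D : (ℕ → ℕ) → ℕ} (hX : LS X) (hl : LS l) (hj : LS j) (hD : LS D) :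
    LS (fun ρ => P.F0 (X ρ) (l ρ) (j ρ) (D ρ)) := by
  have hc := LS_cnt hS hX hl hD (LS_TT P.K hl hD)
  exact LS.ite (LSP.lt hj.succ hc) (LS_pk hX hl hj.succ hD)
    (LS_pk (LS_nX hX hl hc) hl.succ LS.zero hc)

theorem LS_FF : LS (fun ρ => P.FF (ρ 0)) := by
  have h1 := (LS.var 0).sub (LS.const 1)
  have h2 := LS.unpair2 h1
  have h3 := LS.unpair2 h2
  exact LS.ite (LSP.eq (LS.var 0) LS.zero) (LS.const P.z1)
    (LS_F0 hS (LS.unpair1 h1) (LS.unpair1 h2) (LS.unpair1 h3) (LS.unpair2 h3))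

theorem LS_LL : LS (fun ρ => P.LL (ρ 0)) := by
  have h1 := (LS.var 0).sub (LS.const 1)
  have h2 := LS.unpair2 h1
  have h3 := LS.unpair2 h2
  exact LS.ite (LSP.eq (LS.var 0) LS.zero) (LS.const P.coa)
    (LS.min (LS_ltr hS (LS.unpair1 h1) (LS.unpair1 h2) (LS.unpair2 h3) (LS.unpair1 h3))
      (LS.const P.M))

end Par

end Pool.Agent.TH381.RM
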