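import Pool.Agent.W614.Dg.Trans
import Pool.Agent.H539R2.LSLib

/-!
Row marker dgsm's: definitions and the statements of the parts.
-/

set_option autoImplicit false

namespace Pool.Agent.TH381.RM

open Pool.Agent.H584R2.Dg Pool.Agent.W614.Dg Pool.Agent.H539R2

/-- The letter `h` marks the beginnings of the rows: `τ(a) = a h ...`, the dgsm forgets its state
when it reads `h`, and the word emitted then starts with `h`. -/
structure RowMarker {S : Type} (τ : Dgsm S) (a h : S) : Prop where
  next : ∀ q q', τ.next q h = τ.next q' h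
  out : ∀ q q', τ.out q h = τ.out q' h
  marker : ∃ v, τ.out τ.init h = h :: v
  start : ∃ u, τ.out τ.init a = a :: h :: u

/-- Cells of the pipeline: `none` is the sink, otherwise a state and a buffer. -/
abbrev Cell {S : Type} (τ : Dgsm S) := Option (τ.Q × List S)

/-- The buffer of a cell. -/
def buf {S : Type} {τ : Dgsm S} : Cell τ → List S
  | none => []
  | some (_, o) => o

/-- The rule: a cell with an empty buffer consumes the first letter of its left neighbour, a cell
with a nonempty buffer loses its first letter if the right neighbour has an empty buffer. -/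
def rule {S : Type} (τ : Dgsm S) (x y z : Cell τ) : Cell τ :=
  match y with
  | none => none
  | some (q, []) => match buf x with
    | [] => some (q, [])
    | s :: _ => some (τ.next q s, τ.out q s)
  | some (q, s :: o) => match buf z with
    | [] => some (q, o)
    | _ :: _ => some (q, s :: o)

/-- The pipeline: the source at `-l`, the sink at `1`. -/
def cf {S : Type} (τ : Dgsm S) (R0 : List S) (l : ℕ) : ℕ → ℤ → Cell τ
  | 0, i => if i + l = 0 then some (τ.init, R0) else if i = 1 then none else some (τ.init, [])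
  | t + 1, i => rule τ (cf τ R0 l t (i - 1)) (cf τ R0 l t i) (cf τ R0 l t (i + 1))

/-- PIPE: the letters in front at the cell `0` are the letters of the `l`-th row. -/
def SPipe : Prop := ∀ (S : Type) (τ : Dgsm S) (R0 : List S) (l : ℕ), τ.NonErasing →
  (∀ T : ℕ, 2 * (τ.map^[l] R0).length + l + 3 ≤ T →
    (List.range T).filterMap (fun t => (buf (cf τ R0 l t 0)).head?) = τ.map^[l] R0) ∧
  ∀ L : ℕ, R0.length ≤ L → (∀ q x, (τ.out q x).length ≤ L) →
    ∀ t i, (buf (cf τ R0 l t i)).length ≤ L

/-- A cellular automaton with states coded by numbers, two special cells at `-l` and `1`. -/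
def cn (f : ℕ → ℕ → ℕ → ℕ) (a a2 b l : ℕ) : ℕ → ℤ → ℕ
  | 0, i => if i + l = 0 then a else if i = 1 then a2 else b
  | t + 1, i => f (cn f a a2 b l t (i - 1)) (cn f a a2 b l t i) (cn f a a2 b l t (i + 1))

/-- SIM: the state of the cell `0` at the time `t` is computed within values `X ^ O(1)`. -/
def SSim : Prop := ∀ (q : ℕ) (f : ℕ → ℕ → ℕ → ℕ) (a a2 b : ℕ), a < q → a2 < q → b < q →
  (∀ x y z, x < q → y < q → z < q → f x y z < q) →
  ∃ St : ℕ → ℕ → ℕ → ℕ → ℕ, LS (fun ρ => St (ρ 0) (ρ 1) (ρ 2) (ρ 3)) ∧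
    ∀ X B l t : ℕ, 1 ≤ B → t < B * B → (48 * B + 24) ^ (8 * q * B) ≤ X →
      St X B l t = cn f a a2 b l t 0

/-- GEN: words generated by iterating functions computed in linear space. -/
def SGen : Prop := ∀ (S : Type) (F L : ℕ → ℕ) (N : ℕ) (e : ℕ → Option S) (z0 : ℕ) (w : ℕ → S)
  (s : ℕ → ℝ), LS (fun ρ => F (ρ 0)) → LS (fun ρ => L (ρ 0)) → (∀ z, L z ≤ N) →
  (∀ t, IsPre ((List.range t).filterMap (fun i => e (L (F^[i] z0)))) w) →
  (∀ n, ∃ t, n ≤ ((List.range t).filterMap (fun i => e (L (F^[i] z0)))).length) →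
  (∀ n : ℕ, 1 ≤ n → ∀ t, ((List.range t).filterMap (fun i => e (L (F^[i] z0)))).length < n →
    Real.log ((F^[t] z0 : ℕ) + 2) ≤ s n) →
  InSpace s w

/-- COMP: row marker dgsm's with quadratic growth are as hard as all. -/
def SComp : Prop := ∀ (S : Type) [Finite S] (τ : Dgsm S) (a : S) (w : ℕ → S), τ.NonErasing →
  τ.IsLimit a w →
  ∃ (S' : Type) (_ : Finite S') (τ' : Dgsm S') (a' m : S') (w' : ℕ → S') (h : S' → Option S)
    (P : ℕ → ℕ) (A B : ℕ), τ'.NonErasing ∧ τ'.IsLimit a' w' ∧ RowMarker τ' a' m ∧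
    (∀ n : ℕ, n ^ 2 ≤ 2 * (τ'.map^[n] [a']).length ∧
      (τ'.map^[n] [a']).length ≤ A * (n + 1) ^ 2) ∧
    Dec h w' w P ∧ ∀ k, P k + 1 ≤ B * (k + 1) ^ 2

end Pool.Agent.TH381.RM
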