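import Pool.Agent.TH381.RM.Space
import Pool.Agent.TH751.RM.Gen
import Pool.Agent.TH805.RM.Pipe
import Pool.Agent.TH147.RM.Comp

/-!
Quadratic growth.
-/

set_option autoImplicit false

namespace Pool.Agent.TH381.RM

open Pool.Agent.H584R2.Dg Pool.Agent.W614.Dg Pool.Agent.H539R2 Pool.Agent.TH381.Dg

theorem inSpace_const {S : Type} {s : ℕ → ℝ} {w : ℕ → S} (C : ℝ)
    (h : InSpace (fun n => C * s n) w) : InSpace s w := by
  obtain ⟨k, M, C', hM, hs⟩ := h
  refine ⟨k, M, C' * C, hM, ?_⟩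
  intro n hn
  have := hs n hn
  rw [← mul_assoc] at this
  exact this

/-- rows of a row marker dgsm, without hypotheses -/
theorem inSpace_rm {S : Type} [Finite S] (τ : Dgsm S) (a h : S)
    (w : ℕ → S) (hne : τ.NonErasing) (hw : τ.IsLimit a w) (hr : RowMarker τ a h) (f : ℕ → ℝ)
    (hmono : Monotone f) (hf0 : ∀ n, 0 ≤ f n)
    (hf : ∀ l : ℕ, (l : ℝ) + (((τ.map^[l + 1] [a]).length : ℝ) - (τ.map^[l] [a]).length) ≤
      f (τ.map^[l] [a]).length ^ 2) :
    InSpace (fun n => f n * (Real.log n + 1)) w :=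
  inSpace_f TH751.RM.gen TH805.RM.pipe τ a h w hne hw hr f hmono hf0 hf

theorem row_sum {S : Type} {τ : Dgsm S} {a h : S} (hne : τ.NonErasing) (hr : RowMarker τ a h)
    {u : List S} (hu : τ.out τ.init a = a :: h :: u) (l k : ℕ) :
    (τ.map^[l] [a]).length + k * (τ.map^[l] (h :: u)).length ≤ (τ.map^[l + k] [a]).length := by
  have hmono : Monotone (fun l => (τ.map^[l] (h :: u)).length) :=
    monotone_nat_of_le_succ (fun l => row_mono hne _ l)
  induction k with
  | zero => simp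
  | succ k ih =>
    have h1 : l + (k + 1) = l + k + 1 := by ring
    rw [h1, map_succ hr hu, List.length_append]
    have h2 : (τ.map^[l] (h :: u)).length ≤ (τ.map^[l + k] (h :: u)).length :=
      hmono (by omega)
    nlinarith

theorem inSpace_quad {S : Type} [Finite S] (τ : Dgsm S) (a h : S)
    (w : ℕ → S) (hne : τ.NonErasing) (hw : τ.IsLimit a w) (hr : RowMarker τ a h) {A : ℝ}
    (hA1 : ∀ n : ℕ, (n : ℝ) ^ 2 ≤ A * (τ.map^[n] [a]).length)
    (hA2 : ∀ n : ℕ, ((τ.map^[n] [a]).length : ℝ) ≤ A * ((n : ℝ) + 1) ^ 2) :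
    InSpace (fun n => (n : ℝ) ^ (1 / 4 : ℝ) * (Real.log n + 1)) w := by
  obtain ⟨u, hu⟩ := hr.start
  have hA0 : 1 ≤ A := by
    have := hA2 0
    simp at this
    exact this
  obtain ⟨C, hC⟩ : ∃ C, C = 11 * A + 3 := ⟨_, rfl⟩
  have hf : ∀ l : ℕ, (l : ℝ) + (((τ.map^[l + 1] [a]).length : ℝ) - (τ.map^[l] [a]).length) ≤
      (C * ((τ.map^[l] [a]).length : ℝ) ^ (1 / 4 : ℝ)) ^ 2 := by
    intro l
    have h1 : ((τ.map^[l + 1] [a]).length : ℝ) - (τ.map^[l] [a]).length =
        ((τ.map^[l] (h :: u)).length : ℝ) := by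
      rw [map_succ hr hu, List.length_append]
      push_cast
      ring
    rw [h1]
    have h2 : ((τ.map^[l] (h :: u)).length : ℝ) ≤ 9 * A * (l + 1) := by
      have h3 := row_sum hne hr hu l (l + 1)
      have h4 : (((l + 1) * (τ.map^[l] (h :: u)).length : ℕ) : ℝ) ≤
          ((τ.map^[l + (l + 1)] [a]).length : ℝ) := by
        exact_mod_cast (Nat.le_add_left _ _).trans h3
      have h5 := hA2 (l + (l + 1))
      push_cast at h4 h5
      have hl : (0 : ℝ) < (l : ℝ) + 1 := by positivity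
      have h6 : ((l : ℝ) + 1) * ((τ.map^[l] (h :: u)).length : ℝ) ≤
          ((l : ℝ) + 1) * (9 * A * (l + 1)) := by
        calc _ ≤ A * ((l : ℝ) + (l + 1) + 1) ^ 2 := h4.trans h5
          _ = A * (4 * ((l : ℝ) + 1) ^ 2) := by ring
          _ ≤ ((l : ℝ) + 1) * (9 * A * (l + 1)) := by nlinarith [sq_nonneg ((l : ℝ) + 1)]
      exact le_of_mul_le_mul_left h6 hl
    obtain ⟨G, hG⟩ : ∃ G : ℝ, G = ((τ.map^[l] [a]).length : ℝ) := ⟨_, rfl⟩
    have hG1 : (1 : ℝ) ≤ G := by
      rw [hG]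
      exact_mod_cast (Nat.le_add_left _ _).trans (iter_length hne hu (by simp) l)
    have h7 : ((l : ℝ) + 1) ^ 2 ≤ (2 * A + 2) * G := by
      have h8 := hA1 l
      rw [← hG] at h8
      nlinarith [sq_nonneg ((l : ℝ) - 1)]
    have h9 : (l : ℝ) + 1 ≤ (2 * A + 2) * √G := by
      apply le_of_sq_le (by positivity)
      rw [mul_pow, Real.sq_sqrt (by linarith)]
      refine h7.trans ?_
      apply mul_le_mul_of_nonneg_right _ (by linarith)
      nlinarith
    rw [← hG]
    have h10 : (G ^ (1 / 4 : ℝ)) ^ 2 = √G := by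
      rw [Real.sqrt_eq_rpow, ← Real.rpow_natCast, ← Real.rpow_mul (by linarith)]
      norm_num
    rw [mul_pow, h10]
    have h11 : 0 ≤ √G := Real.sqrt_nonneg G
    calc (l : ℝ) + ((τ.map^[l] (h :: u)).length : ℝ) ≤ (9 * A + 1) * (l + 1) := by nlinarith
      _ ≤ (9 * A + 1) * ((2 * A + 2) * √G) := by
        apply mul_le_mul_of_nonneg_left h9 (by linarith)
      _ = ((9 * A + 1) * (2 * A + 2)) * √G := by ring
      _ ≤ C ^ 2 * √G := by
        apply mul_le_mul_of_nonneg_right _ h11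
        rw [hC]
        nlinarith
  have := inSpace_rm τ a h w hne hw hr (fun n => C * (n : ℝ) ^ (1 / 4 : ℝ))
    (by
      intro m n hmn
      apply mul_le_mul_of_nonneg_left _ (by linarith)
      exact Real.rpow_le_rpow (Nat.cast_nonneg _) (by exact_mod_cast hmn) (by norm_num))
    (fun n => mul_nonneg (by linarith) (Real.rpow_nonneg (Nat.cast_nonneg _) _)) hf
  refine inSpace_const C ?_
  have e : (fun n : ℕ => C * ((n : ℝ) ^ (1 / 4 : ℝ) * (Real.log n + 1))) =
      fun n : ℕ => C * (n : ℝ) ^ (1 / 4 : ℝ) * (Real.log n + 1) := by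
    funext n
    ring
  rw [e]
  exact this

end Pool.Agent.TH381.RM
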