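import Pool.Agent.TH381.RM.SimR

/-!
Correctness of the number-coded simulation (after `H539R2.SimZC`).
-/

set_option linter.unusedSimpArgs false
set_option linter.unusedVariables false

namespace Pool.Agent.TH381.RM

open Pool.Agent.H539R2


namespace Prm

/-- validity of the parameters -/
structure Valid (P : Prm) : Prop where
  q : 1 ≤ P.q
  a : P.a < P.q
  a2 : P.a2 < P.q
  b : P.b < P.q
  B : 1 ≤ P.B
  p : 2 ≤ P.p
  hg : (P.g : ZMod P.p) ^ (P.p - 1) = 1
  hsum : ∀ k, 1 ≤ k → k ≤ 3 * P.B →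
    ∑ i ∈ Finset.range (P.p - 1), ((P.g : ZMod P.p) ^ (i + 1)) ^ k = 0
  hX1 : P.q ^ (3 * P.B) ≤ P.X
  hX2 : P.p ^ (4 * P.B * P.q) ≤ P.X
  hX3 : (8 * (P.p - 1)) ^ P.H ≤ P.X

/-- the true configuration at each time -/
def cz (P : Prm) : ℕ → ℤ → ℕ
  | 0, i => if i + P.c + P.l = P.B then P.a else if i + P.c = P.B + 1 then P.a2 else P.b
  | (t + 1), i => dg P.q P.dc ((P.cz t (i - 1) * P.q + P.cz t i) * P.q + P.cz t (i + 1))

/-- cell of a window position -/
def zidx (P : Prm) (v z : ℕ) : ℤ := (P.cidx v z : ℤ) - (P.off : ℤ)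

variable {P : Prm} (hP : P.Valid)
include hP

theorem cz_lt (t : ℕ) (i : ℤ) : P.cz t i < P.q := by
  cases t with
  | zero =>
    unfold cz
    split_ifs
    · exact hP.a
    · exact hP.a2
    · exact hP.b
  | succ t =>
    unfold cz
    exact dg_lt _ _ _ hP.q

theorem powq (z : ℕ) (hz : z ≤ 3 * P.B) : powT P.X P.q z = P.q ^ z :=
  powT_eq _ _ _ hP.q ((Nat.pow_le_pow_right hP.q hz).trans hP.hX1)

omit hP in
theorem cell0_eq (v z : ℕ) : P.cell0 v z = P.cz 0 (P.zidx v z) := by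
  unfold cell0 cz zidx
  by_cases h : P.cidx v z + P.c + P.l = P.off + P.B
  · have h' : (P.cidx v z : ℤ) - (P.off : ℤ) + P.c + P.l = P.B := by omega
    rw [if_pos h, if_pos h']
  · have h' : ¬ ((P.cidx v z : ℤ) - (P.off : ℤ) + P.c + P.l = P.B) := by omega
    rw [if_neg h, if_neg h']
    by_cases h2 : P.cidx v z + P.c = P.off + P.B + 1
    · have h2' : (P.cidx v z : ℤ) - (P.off : ℤ) + P.c = P.B + 1 := by omega
      rw [if_pos h2, if_pos h2']
    · have h2' : ¬ ((P.cidx v z : ℤ) - (P.off : ℤ) + P.c = P.B + 1) := by omega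
      rw [if_neg h2, if_neg h2']

theorem cellN_lt (w z : ℕ) : P.cellN w z < P.q := dg_lt _ _ _ hP.q

theorem estep_dg (w z : ℕ) (hz : z < 3 * P.B) : dg P.q (P.estep w) z = P.cellN w z := by
  have : P.estep w = digs P.q (3 * P.B) (fun z => P.cellN w z) := by
    unfold estep digs
    apply Finset.sum_congr rfl
    intro i hi
    rw [powq hP i (Finset.mem_range.1 hi).le]
  rw [this, dg_digs _ _ hP.q _ (fun i _ => cellN_lt hP w i) z hz]

theorem w0_dg (v z : ℕ) (hz : z < 3 * P.B) : dg P.q (P.w0 v) z = P.cz 0 (P.zidx v z) := by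
  have : P.w0 v = digs P.q (3 * P.B) (fun z => P.cz 0 (P.zidx v z)) := by
    unfold w0 digs
    apply Finset.sum_congr rfl
    intro i hi
    rw [powq hP i (Finset.mem_range.1 hi).le, cell0_eq]
  rw [this, dg_digs _ _ hP.q _ (fun i _ => cz_lt hP 0 _) z hz]

theorem evo_dg (t v w : ℕ) (hw : ∀ z < 3 * P.B, dg P.q w z = P.cz t (P.zidx v z)) :
    ∀ r ≤ P.B, ∀ z, r ≤ z → z + r < 3 * P.B → dg P.q (P.evo w r) z = P.cz (t + r) (P.zidx v z)
    := by
  intro r
  induction r with
  | zero =>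
    intro _ z _ hz
    exact hw z (by omega)
  | succ r ih =>
    intro hr z hz1 hz2
    have e : P.evo w (r + 1) = P.estep (P.evo w r) := rfl
    rw [e, estep_dg hP _ z (by omega)]
    unfold cellN
    rw [← add_assoc t r 1]
    conv_rhs => unfold cz
    rw [ih (by omega) (z - 1) (by omega) (by omega), ih (by omega) z (by omega) (by omega),
        ih (by omega) (z + 1) (by omega) (by omega)]
    have h1 : P.zidx v (z - 1) = P.zidx v z - 1 := by
      unfold zidx cidx at *; omega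
    have h2 : P.zidx v (z + 1) = P.zidx v z + 1 := by
      unfold zidx cidx at *; omega
    rw [h1, h2]

theorem Z_dg : ∀ (s u x : ℕ), x < P.B →
    dg P.q (Z P.q P.B P.F P.Z0 u s) x =
      P.cz (s * P.B) (((u + s) * P.B + x : ℕ) - (P.H * P.B : ℕ) : ℤ) := by
  intro s
  induction s with
  | zero =>
    intro u x hx
    show dg P.q (P.Z0 u) x = _
    have h2 : dg P.q (P.Z0 u) x = dg P.q (P.w0 u) (P.B + x) := by
      unfold Z0 dg
      rw [Nat.div_div_eq_div_mul, ← pow_add]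
    rw [h2, w0_dg hP u (P.B + x) (by omega)]
    have e0 : 0 * P.B = 0 := by ring
    rw [e0]
    congr 1
    unfold zidx cidx off
    have e1 : (P.H + 1) * P.B = P.H * P.B + P.B := by ring
    rw [e1, add_zero]
    push_cast
    ring
  | succ s ih =>
    intro u x hx
    set y := Y P.q P.B P.F P.Z0 u s with hy
    show dg P.q (P.F u s y) x = _
    have h2 : dg P.q (P.F u s y) x = dg P.q (P.evo y P.B) (P.B + x) := by
      unfold F dg
      rw [Nat.div_div_eq_div_mul, ← pow_add]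
    have hyd : ∀ z < 3 * P.B, dg P.q y z = P.cz (s * P.B) (P.zidx (u + s + 1) z) := by
      intro z hz
      rw [hy]
      unfold Y
      rw [dg_digs _ _ hP.q _ (fun i _ => dg_lt _ _ _ hP.q) z hz]
      have hB : 0 < P.B := by have := hP.B; omega
      rw [ih (u + z / P.B) (z % P.B) (Nat.mod_lt _ hB)]
      congr 1
      unfold zidx cidx off
      have e1 : (P.H + 1) * P.B = P.H * P.B + P.B := by ring
      have e2 : (u + s + 1) * P.B = (u + s) * P.B + P.B := by ring
      have e3 : (u + z / P.B + s) * P.B + z % P.B = (u + s) * P.B + z := by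
        have := Nat.div_add_mod z P.B
        calc (u + z / P.B + s) * P.B + z % P.B = (u + s) * P.B + (P.B * (z / P.B) + z % P.B) := by
              ring
          _ = _ := by rw [this]
      rw [e1, e2, e3]
      push_cast
      ring
    rw [h2, evo_dg hP _ _ _ hyd P.B le_rfl (P.B + x) (by omega) (by omega)]
    have e4 : s * P.B + P.B = (s + 1) * P.B := by ring
    rw [e4]
    congr 1
    unfold zidx cidx off
    have e1 : (P.H + 1) * P.B = P.H * P.B + P.B := by ring
    have e2 : (u + s + 1) * P.B = (u + (s + 1)) * P.B := by ring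
    rw [e1, e2]
    push_cast
    ring

omit hP in
theorem D_mod (τ s i : ℕ) (hi : i < s) : P.D (τ % P.K ^ s) i = P.D τ i := dg_mod _ _ _ _ hi

omit hP in
theorem lev_mod (τ s : ℕ) : P.lev (τ % P.K ^ s) s = P.lev τ s := by
  unfold lev
  apply nrec_congr
  intro i hi x
  rw [D_mod τ s i hi]

omit hP in
theorem uu_mod (τ s : ℕ) : P.uu (τ % P.K ^ s) s = P.uu τ s := by
  unfold uu
  rw [lev_mod]
  apply Finset.sum_congr rfl
  intro i hi
  rw [D_mod τ s i (Finset.mem_range.1 hi)]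

/-- sign -/
def sgR (P : Prm) (τ s : ℕ) (ε0 : ZMod P.p) : ZMod P.p :=
  if P.lev τ s < s then (if P.D τ (P.lev τ s) / 4 % 2 = 0 then 1 else -1) else ε0

/-- closed form of the operations -/
def cop (P : Prm) (s u0 : ℕ) (ε0 : ZMod P.p) (τ : ℕ) :
    (ℕ → ℕ → ℕ → ZMod P.p) → (ℕ → ℕ → ℕ → ZMod P.p) :=
  if P.lev τ s = 0 then leafOp P.q P.Z0 (u0 + P.uu τ s) (P.sgR τ s ε0)
  else if τ % P.K ^ (P.lev τ s - 1) = 0 then
    (if P.D τ (P.lev τ s - 1) % 8 = 0 then scaleOp (P.g : ZMod P.p) (u0 + P.uu τ s) (P.lev τ s)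
     else polyOp P.q P.B P.F (-1 : ZMod P.p) (u0 + P.uu τ s) (P.lev τ s - 1) (P.sgR τ s ε0))
  else id

omit hP in
theorem opS_eq_cop : ∀ (s u0 : ℕ) (ε0 : ZMod P.p) (τ : ℕ), τ < P.K ^ s →
    opS P.q P.B (P.p - 1) P.F P.Z0 (P.g : ZMod P.p) (-1) s u0 ε0 τ = P.cop s u0 ε0 τ := by
  intro s
  induction s with
  | zero =>
    intro u0 ε0 τ _
    simp [opS, cop, lev, uu, sgR]
  | succ s ih =>
    intro u0 ε0 τ hτ
    have hKs : 0 < P.K ^ s := by
      rcases Nat.eq_zero_or_pos (P.K ^ s) with h | h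
      · rw [pow_succ, h] at hτ; omega
      · exact h
    have hDs : P.D τ s = τ / P.K ^ s := by
      unfold D dg
      apply Nat.mod_eq_of_lt
      rw [Nat.div_lt_iff_lt_mul hKs, mul_comm, ← pow_succ]
      exact hτ
    have hlevs : P.lev τ (s + 1) = if P.D τ s % 4 = 0 then s + 1 else P.lev τ s := rfl
    have hK' : 8 * (P.p - 1) = P.K := rfl
    rw [opS, hK', ← hDs]
    by_cases h4 : P.D τ s % 4 = 0
    · rw [if_pos h4]
      rw [if_pos h4] at hlevs
      unfold cop
      rw [hlevs]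
      have huu : P.uu τ (s + 1) = 0 := by
        unfold uu
        apply Finset.sum_eq_zero
        intro i hi
        rw [Finset.mem_range] at hi
        rw [hlevs, if_neg (by omega)]
      have hsg : P.sgR τ (s + 1) ε0 = ε0 := by
        unfold sgR
        rw [hlevs, if_neg (by omega)]
      rw [huu, hsg, if_neg (Nat.succ_ne_zero s)]
      rfl
    · rw [if_neg h4]
      rw [if_neg h4] at hlevs
      rw [ih _ _ _ (Nat.mod_lt _ hKs)]
      have hle := lev_le P τ s
      unfold cop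
      rw [lev_mod, uu_mod, hlevs]
      have huu : P.uu τ (s + 1) = P.uu τ s + (P.D τ s % 4 - 1) := by
        unfold uu
        rw [Finset.sum_range_succ, hlevs, if_pos hle]
      have hsg : P.sgR (τ % P.K ^ s) s (if P.D τ s / 4 % 2 = 0 then 1 else -1) =
          P.sgR τ (s + 1) ε0 := by
        unfold sgR
        rw [lev_mod, hlevs, if_pos (by omega : P.lev τ s < s + 1)]
        by_cases h5 : P.lev τ s < s
        · rw [if_pos h5, D_mod _ _ _ h5]
        · rw [if_neg h5]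
          have : P.lev τ s = s := by omega
          rw [this]
      have hu : u0 + (P.D τ s % 4 - 1) + P.uu τ s = u0 + P.uu τ (s + 1) := by
        rw [huu]; ring
      rw [hsg, hu]
      by_cases h0 : P.lev τ s = 0
      · rw [if_pos h0, if_pos h0]
      · rw [if_neg h0, if_neg h0]
        have hmod : τ % P.K ^ s % P.K ^ (P.lev τ s - 1) = τ % P.K ^ (P.lev τ s - 1) := by
          apply Nat.mod_mod_of_dvd
          exact pow_dvd_pow _ (by omega)
        rw [hmod, D_mod _ _ _ (by omega : P.lev τ s - 1 < s)]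

theorem pcast : ((P.p - 1 : ℕ) : ZMod P.p) = -1 := by
  have := hP.p
  rw [Nat.cast_sub (by omega)]
  simp

theorem sgn_cast (τ s : ℕ) : ((P.sgn τ s : ℕ) : ZMod P.p) = P.sgR τ s 1 := by
  unfold sgn sgR
  split_ifs
  · simp
  · exact pcast hP
  · simp

theorem Pn_cast (u s R x σ : ℕ) (ρ : ℕ → ℕ → ℕ → ZMod P.p)
    (hρ : ∀ o x σ, o < 4 → x < P.B → σ < P.q → (dg P.p R (P.rix o x σ) : ZMod P.p) = ρ o x σ) :
    ((P.Pn u s R x σ : ℕ) : ZMod P.p) = H539R2.P P.q P.B P.F u s ρ x σ := by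
  unfold Pn H539R2.P
  rw [powq hP _ le_rfl, Nat.cast_sum]
  apply Finset.sum_congr rfl
  intro y _
  rw [Nat.cast_mul, pmod_cast _ (by have := hP.p; omega)]
  congr 1
  · unfold oneh
    split_ifs <;> simp
  · apply Finset.prod_congr rfl
    intro z _
    have hB : 0 < P.B := by have := hP.B; omega
    exact hρ _ _ _ (Nat.mod_lt _ (by omega)) (Nat.mod_lt _ hB) (dg_lt _ _ _ hP.q)

theorem powK (j : ℕ) (hj : j ≤ P.H) : powT P.X P.K j = P.K ^ j := by
  have hK : 0 < P.K := by unfold K; have := hP.p; omega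
  exact powT_eq _ _ _ hK ((Nat.pow_le_pow_right hK hj).trans hP.hX3)

theorem nd_lt (τ R o x σ cur : ℕ) (hcur : cur < P.p) : P.nd τ R o x σ cur < P.p := by
  have hp : 0 < P.p := by have := hP.p; omega
  unfold nd
  split_ifs
  all_goals first
    | exact hcur
    | exact Nat.mod_lt _ hp

theorem nd_cast (τ R o x σ cur : ℕ) (hτ : τ < P.K ^ P.H)
    (ρ : ℕ → ℕ → ℕ → ZMod P.p)
    (hρ : ∀ o x σ, o < 4 → x < P.B → σ < P.q → (dg P.p R (P.rix o x σ) : ZMod P.p) = ρ o x σ)
    (hcur : (cur : ZMod P.p) = ρ o x σ) :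
    ((P.nd τ R o x σ cur : ℕ) : ZMod P.p) =
      opS P.q P.B (P.p - 1) P.F P.Z0 (P.g : ZMod P.p) (-1) P.H 0 1 τ ρ o x σ := by
  rw [opS_eq_cop P.H 0 1 τ hτ]
  have hle := lev_le P τ P.H
  unfold nd cop
  rw [powK hP _ (by omega), zero_add]
  by_cases h0 : P.lev τ P.H = 0
  · rw [if_pos h0, if_pos h0]
    unfold leafOp
    by_cases ho : o = blk (P.uu τ P.H) 0
    · simp only [if_pos ho]
      rw [ZMod.natCast_mod, Nat.cast_add, Nat.cast_mul, sgn_cast hP, hcur]
      unfold oneh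
      split_ifs <;> simp
    · simp only [if_neg ho]
      exact hcur
  · rw [if_neg h0, if_neg h0]
    by_cases h1 : τ % P.K ^ (P.lev τ P.H - 1) = 0
    · rw [if_pos h1, if_pos h1]
      by_cases h2 : P.D τ (P.lev τ P.H - 1) % 8 = 0
      · rw [if_pos h2, if_pos h2]
        unfold scaleOp
        by_cases ho : o = blk (P.uu τ P.H) (P.lev τ P.H)
        · simp only [if_pos ho]
          exact hcur
        · simp only [if_neg ho]
          rw [ZMod.natCast_mod, Nat.cast_mul, hcur]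
      · rw [if_neg h2, if_neg h2]
        unfold polyOp
        have h3 : P.lev τ P.H - 1 + 1 = P.lev τ P.H := by omega
        rw [h3]
        by_cases ho : o = blk (P.uu τ P.H) (P.lev τ P.H)
        · simp only [if_pos ho]
          rw [ZMod.natCast_mod, Nat.cast_add, Nat.cast_mul, Nat.cast_mul, sgn_cast hP, hcur,
            pcast hP, Pn_cast hP _ _ _ _ _ ρ hρ]
        · simp only [if_neg ho]
          exact hcur
    · rw [if_neg h1, if_neg h1]
      exact hcur

omit hP in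
theorem rix_lt (o x σ : ℕ) (ho : o < 4) (hx : x < P.B) (hσ : σ < P.q) :
    P.rix o x σ < 4 * P.B * P.q := by
  unfold rix
  have h1 : o * P.B + x < 4 * P.B := by nlinarith
  nlinarith

omit hP in
theorem rix_dec (o x σ : ℕ) (hx : x < P.B) (hσ : σ < P.q) :
    P.rix o x σ / (P.B * P.q) = o ∧ P.rix o x σ / P.q % P.B = x ∧ P.rix o x σ % P.q = σ := by
  have hq : 0 < P.q := by omega
  have hB : 0 < P.B := by omega
  unfold rix
  have h1 : ((o * P.B + x) * P.q + σ) / P.q = o * P.B + x := by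
    rw [mul_comm, Nat.mul_add_div hq, Nat.div_eq_of_lt hσ, add_zero]
  refine ⟨?_, ?_, ?_⟩
  · rw [mul_comm P.B P.q, ← Nat.div_div_eq_div_mul, h1, mul_comm, Nat.mul_add_div hB,
      Nat.div_eq_of_lt hx, add_zero]
  · rw [h1, mul_comm, Nat.mul_add_mod, Nat.mod_eq_of_lt hx]
  · rw [mul_comm, Nat.mul_add_mod, Nat.mod_eq_of_lt hσ]

theorem ostep_dg (τ R o x σ : ℕ) (ho : o < 4) (hx : x < P.B) (hσ : σ < P.q) :
    dg P.p (P.ostep τ R) (P.rix o x σ) = P.nd τ R o x σ (dg P.p R (P.rix o x σ)) := by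
  have hp : 0 < P.p := by have := hP.p; omega
  have hlt : ∀ i, P.nd τ R (i / (P.B * P.q)) (i / P.q % P.B) (i % P.q) (dg P.p R i) < P.p :=
    fun i => nd_lt hP _ _ _ _ _ _ (dg_lt _ _ _ hp)
  have : P.ostep τ R = digs P.p (4 * P.B * P.q) (fun i =>
      P.nd τ R (i / (P.B * P.q)) (i / P.q % P.B) (i % P.q) (dg P.p R i)) := by
    unfold ostep digs
    apply Finset.sum_congr rfl
    intro i hi
    rw [min_eq_left (hlt i).le, powT_eq _ _ _ hp ((Nat.pow_le_pow_right hp
      (Finset.mem_range.1 hi).le).trans hP.hX2)]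
  rw [this, dg_digs _ _ hp _ (fun i _ => hlt i) _ (rix_lt o x σ ho hx hσ)]
  obtain ⟨h1, h2, h3⟩ := rix_dec (P := P) o x σ hx hσ
  rw [h1, h2, h3]

theorem regs_inv : ∀ τ, τ ≤ P.K ^ P.H → ∀ o x σ, o < 4 → x < P.B → σ < P.q →
    (dg P.p (nrec 0 (fun τ R => P.ostep τ R) τ) (P.rix o x σ) : ZMod P.p) =
      H539R2.run (opS P.q P.B (P.p - 1) P.F P.Z0 (P.g : ZMod P.p) (-1) P.H 0 1) τ
        (fun _ _ _ => 0) o x σ := by
  intro τ
  induction τ with
  | zero =>
    intro _ o x σ _ _ _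
    simp [dg, run]
  | succ τ ih =>
    intro hτ o x σ ho hx hσ
    rw [nrec_succ, ostep_dg hP _ _ _ _ _ ho hx hσ, run]
    exact nd_cast hP τ _ o x σ _ (by omega) _ (ih (by omega)) (ih (by omega) o x σ ho hx hσ)

/-- correctness of the simulation -/
theorem sim_eq : P.sim = P.cz (P.H * P.B) 0 := by
  have hp2 := hP.p
  have hBpos : 0 < P.B := by have := hP.B; omega
  have hfin := run_opS P.q P.B (P.p - 1) hP.q hBpos (by omega) P.F P.Z0 (P.g : ZMod P.p) (-1)
    hP.hg (by rw [pcast hP]; ring) hP.hsum P.H 0 1 (fun _ _ _ => 0)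
  have hregs : ∀ σ < P.q, dg P.p P.regs (P.rix (blk 0 P.H) 0 σ) =
      if P.cz (P.H * P.B) 0 = σ then 1 else 0 := by
    intro σ hσ
    have h1 := regs_inv hP (P.K ^ P.H) le_rfl (blk 0 P.H) 0 σ (Nat.mod_lt _ (by omega))
      (by have := hP.B; omega) hσ
    have hK : (8 * (P.p - 1)) ^ P.H = P.K ^ P.H := rfl
    rw [hK] at hfin
    rw [hfin] at h1
    have hZ : dg P.q (Z P.q P.B P.F P.Z0 0 P.H) 0 = P.cz (P.H * P.B) 0 := by
      rw [Z_dg hP P.H 0 0 (by have := hP.B; omega)]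
      congr 1
      rw [zero_add, add_zero]
      ring
    unfold EV oneh at h1
    rw [if_pos rfl, hZ, zero_add, one_mul] at h1
    have h2 : P.regs = nrec 0 (fun τ R => P.ostep τ R) (P.K ^ P.H) := by
      unfold regs
      rw [powK hP _ le_rfl]
    rw [← h2] at h1
    have hlt : dg P.p P.regs (P.rix (blk 0 P.H) 0 σ) < P.p := dg_lt _ _ _ (by omega)
    have h3 : (dg P.p P.regs (P.rix (blk 0 P.H) 0 σ) : ZMod P.p) =
        ((if P.cz (P.H * P.B) 0 = σ then 1 else 0 : ℕ) : ZMod P.p) := by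
      rw [h1]; split_ifs <;> simp
    have h4 := (ZMod.natCast_eq_natCast_iff' _ _ _).1 h3
    rw [Nat.mod_eq_of_lt hlt, Nat.mod_eq_of_lt (by split_ifs <;> omega)] at h4
    exact h4
  unfold sim
  have h5 : ∀ σ ∈ Finset.range P.q, σ * dg P.p P.regs (P.rix (blk 0 P.H) 0 σ) =
      if P.cz (P.H * P.B) 0 = σ then σ else 0 := by
    intro σ hσ
    rw [hregs σ (Finset.mem_range.1 hσ)]
    split_ifs <;> simp
  rw [Finset.sum_congr rfl h5, Finset.sum_ite_eq, if_pos (Finset.mem_range.2 (cz_lt hP _ _))]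

end Prm

end Pool.Agent.TH381.RM
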