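import Pool.Agent.TH381.RM.Asm

/-!
The space used by the generating machine.
-/

set_option autoImplicit false

namespace Pool.Agent.TH381.RM

open Pool.Agent.H584R2.Dg Pool.Agent.W614.Dg Pool.Agent.H539R2 Pool.Agent.TH381.Dg

theorem log_XX (q B : ℕ) : Real.log (XX q B : ℕ) = 8 * q * B * Real.log (48 * B + 24) := by
  unfold XX
  push_cast
  rw [Real.log_pow]
  push_cast
  ring

theorem le_of_sq_le {x y : ℝ} (hy : 0 ≤ y) (h : x ^ 2 ≤ y ^ 2) : x ≤ y := by
  by_contra hc
  push Not at hc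
  nlinarith

/-- The size of the numbers. -/
theorem log_pk {K q l j D G n : ℕ} {r : ℝ} (hq : 1 ≤ q) (hr : 0 ≤ r)
    (h1 : ((TT K l D : ℕ) : ℝ) ≤ (2 * K + 5) * r ^ 2) (h2 : TT K l D ≤ (2 * K + 5) * G)
    (hG : G ≤ n) (hn : 1 ≤ n) (hj : j ≤ TT K l D) (hD : D ≤ TT K l D) :
    Real.log ((Par.pk (XX q (BB K l D)) l j D : ℕ) + 2) ≤
      144 * q * (2 * K + 7) * (Real.log (288 * (2 * K + 5)) + 1) * (r * (Real.log n + 1)) := by
  obtain ⟨T, hT⟩ : ∃ T, T = TT K l D := ⟨_, rfl⟩
  obtain ⟨B, hB⟩ : ∃ B, B = BB K l D := ⟨_, rfl⟩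
  obtain ⟨X, hX⟩ : ∃ X, X = XX q B := ⟨_, rfl⟩
  have hTB : T < B * B := by rw [hT, hB]; exact TT_lt K l D
  have hB1 : 1 ≤ B := by rw [hB]; unfold BB; omega
  have hBX : B * B ≤ X := by rw [hX]; exact sq_le_XX q B hq hB1
  have hl : l ≤ T := by rw [hT]; unfold TT; omega
  have hT4 : 4 ≤ T := by rw [hT]; unfold TT; omega
  rw [← hT] at h1 h2 hj hD
  rw [← hB, ← hX]
  have hpk := pk_le X l j D (by omega) (by omega) (by omega) (by omega)
  have hX2 : X + 1 ≤ X ^ 2 := by nlinarith
  have hpk2 : Par.pk X l j D + 2 ≤ X ^ 18 := by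
    calc _ ≤ (X + 1) ^ 9 := hpk
      _ ≤ (X ^ 2) ^ 9 := Nat.pow_le_pow_left hX2 _
      _ = _ := by rw [← pow_mul]
  have e1 : Real.log ((Par.pk X l j D : ℕ) + 2) ≤ 18 * Real.log (X : ℝ) := by
    rw [show (18 : ℝ) = ((18 : ℕ) : ℝ) by norm_num, ← Real.log_pow]
    apply Real.log_le_log (by positivity)
    exact_mod_cast hpk2
  have e2 : Real.log (X : ℝ) = 8 * q * B * Real.log (48 * B + 24) := by rw [hX]; exact log_XX q B
  -- the bound for `B`
  have hs : Nat.sqrt T * Nat.sqrt T ≤ T := Nat.sqrt_le T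
  have hs1 : 1 ≤ Nat.sqrt T := by
    rw [Nat.le_sqrt]; omega
  have hBs : B = Nat.sqrt T + 1 := by rw [hB, hT]; rfl
  have hBB : B * B ≤ 4 * T := by rw [hBs]; nlinarith
  have hBB' : (B : ℝ) ^ 2 ≤ 4 * T := by
    have : ((B * B : ℕ) : ℝ) ≤ ((4 * T : ℕ) : ℝ) := by exact_mod_cast hBB
    push_cast at this
    nlinarith
  have hK0 : (0 : ℝ) ≤ K := Nat.cast_nonneg K
  have hBr : (B : ℝ) ≤ (2 * K + 7) * r := by
    have h5 : (B : ℝ) ^ 2 ≤ ((2 * K + 7) * r) ^ 2 := by
      calc (B : ℝ) ^ 2 ≤ 4 * T := hBB'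
        _ ≤ 4 * ((2 * K + 5) * r ^ 2) := by linarith
        _ ≤ ((2 * K + 7) * r) ^ 2 := by
            nlinarith [sq_nonneg r, mul_nonneg hK0 (sq_nonneg r),
              mul_nonneg (mul_nonneg hK0 hK0) (sq_nonneg r)]
    have h50 : (0 : ℝ) ≤ (2 * K + 7) * r := by positivity
    exact le_of_sq_le h50 h5
  have hlog : Real.log (48 * B + 24) ≤ (Real.log (288 * (2 * K + 5)) + 1) * (Real.log n + 1) := by
    have h6 : 48 * B + 24 ≤ 288 * (2 * K + 5) * n := by
      have : 48 * B + 24 ≤ 72 * (B * B) := by nlinarith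
      calc 48 * B + 24 ≤ 72 * (B * B) := this
        _ ≤ 72 * (4 * T) := Nat.mul_le_mul_left _ hBB
        _ ≤ 72 * (4 * ((2 * K + 5) * n)) := by
            apply Nat.mul_le_mul_left
            apply Nat.mul_le_mul_left
            exact h2.trans (Nat.mul_le_mul_left _ hG)
        _ = _ := by ring
    have h7 : (48 * B + 24 : ℝ) ≤ 288 * (2 * K + 5) * n := by exact_mod_cast h6
    have hn' : (1 : ℝ) ≤ n := by exact_mod_cast hn
    have h8 : Real.log (48 * B + 24) ≤ Real.log (288 * (2 * K + 5)) + Real.log n := by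
      rw [← Real.log_mul (by positivity) (by positivity)]
      exact Real.log_le_log (by positivity) h7
    have h9 : 0 ≤ Real.log (288 * (2 * (K : ℝ) + 5)) := Real.log_nonneg (by nlinarith)
    have h10 : 0 ≤ Real.log n := Real.log_nonneg hn'
    have h11 := mul_nonneg h9 h10
    have h12 : (Real.log (288 * (2 * (K : ℝ) + 5)) + 1) * (Real.log n + 1) =
      Real.log (288 * (2 * (K : ℝ) + 5)) * Real.log n + Real.log (288 * (2 * (K : ℝ) + 5)) +
        Real.log n + 1 := by ring
    rw [h12]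
    linarith
  have hlog0 : 0 ≤ Real.log (48 * (B : ℝ) + 24) := Real.log_nonneg (by
    have : (0 : ℝ) ≤ B := Nat.cast_nonneg B
    linarith)
  have hlogn : 0 ≤ (Real.log (288 * (2 * K + 5)) + 1) * (Real.log n + 1) := hlog0.trans hlog
  have hq0 : (0 : ℝ) ≤ q := Nat.cast_nonneg q
  calc Real.log ((Par.pk X l j D : ℕ) + 2) ≤ 18 * Real.log (X : ℝ) := e1
    _ = 144 * q * (B * Real.log (48 * B + 24)) := by rw [e2]; ring
    _ ≤ 144 * q * (((2 * K + 7) * r) * ((Real.log (288 * (2 * K + 5)) + 1) *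
        (Real.log n + 1))) := by
        apply mul_le_mul_of_nonneg_left _ (by positivity)
        exact mul_le_mul hBr hlog hlog0 (by positivity)
    _ = _ := by ring

/-- The space for generating words of row marker dgsm's. -/
theorem inSpace_f (hgen : SGen) (hpipe : SPipe) {S : Type} [Finite S] (τ : Dgsm S) (a h : S)
    (w : ℕ → S) (hne : τ.NonErasing) (hw : τ.IsLimit a w) (hr : RowMarker τ a h) (f : ℕ → ℝ)
    (hmono : Monotone f) (hf0 : ∀ n, 0 ≤ f n)
    (hf : ∀ l : ℕ, (l : ℝ) + (((τ.map^[l + 1] [a]).length : ℝ) - (τ.map^[l] [a]).length) ≤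
      f (τ.map^[l] [a]).length ^ 2) :
    InSpace (fun n => f n * (Real.log n + 1)) w := by
  obtain ⟨u, hu⟩ := hr.start
  obtain ⟨K0, hK0⟩ := exists_bound τ
  obtain ⟨K, hKdef⟩ : ∃ K, K = K0 + (h :: u).length := ⟨_, rfl⟩
  obtain ⟨F, L, N, e, q, hq, hF, hL, hLN, hlet, hst⟩ := machine hpipe τ a h w hne hw hr hu
    (K := K) (by rw [hKdef]; simp; omega) (fun q x => (hK0 q x).trans (by omega)) (by omega)
  have hlist : ∀ t, (List.range t).filterMap (fun i => e (L (F^[i] 0))) =
      (List.range t).map w := by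
    intro t
    rw [← List.filterMap_eq_map]
    apply List.filterMap_congr
    intro i _
    exact hlet i
  have hrow : ∀ l, ((τ.map^[l] (h :: u)).length : ℝ) =
      ((τ.map^[l + 1] [a]).length : ℝ) - (τ.map^[l] [a]).length := by
    intro l
    rw [map_succ hr hu, List.length_append]
    push_cast
    ring
  have hrow1 : ∀ l, 1 ≤ (τ.map^[l] (h :: u)).length := fun l => row_pos hne h u l
  have hDp1 : ∀ l, Dp τ (h :: u) l ≤ (τ.map^[l] (h :: u)).length := by
    intro l
    cases l with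
    | zero => simp [Dp]
    | succ l => exact row_mono hne _ _
  have hlG : ∀ l, l + 1 ≤ (τ.map^[l] [a]).length := fun l =>
    iter_length hne hu (by simp) l
  have hDG : ∀ l, Dp τ (h :: u) l ≤ (τ.map^[l] [a]).length := by
    intro l
    cases l with
    | zero => simp [Dp]
    | succ l =>
      rw [map_succ hr hu, List.length_append]
      show (τ.map^[l] (h :: u)).length ≤ _
      omega
  have hrowK : ∀ l, (τ.map^[l] (h :: u)).length ≤ K * Dp τ (h :: u) l := by
    intro l
    cases l with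
    | zero =>
      show (h :: u).length ≤ K * 1
      omega
    | succ l => exact row_le (fun q x => (hK0 q x).trans (by omega)) _ _
  have hf1 : ∀ n : ℕ, 1 ≤ n → 1 ≤ f n := by
    intro n hn
    have h1 := hf 0
    rw [← hrow 0] at h1
    have h2 : (1 : ℝ) ≤ ((τ.map^[0] (h :: u)).length : ℝ) := by exact_mod_cast hrow1 0
    have h3 : (1 : ℝ) ^ 2 ≤ f (τ.map^[0] [a]).length ^ 2 := by
      rw [one_pow]
      refine le_trans ?_ h1
      push_cast
      linarith
    have h4 := le_of_sq_le (hf0 _) h3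
    exact h4.trans (hmono (by simpa using hn))
  have key : ∀ n : ℕ, 1 ≤ n → ∀ t, t < n → Real.log ((F^[t] 0 : ℕ) + 2) ≤
      (144 * q * (2 * K + 7) * (Real.log (288 * (2 * K + 5)) + 1) + 1) *
        (f n * (Real.log n + 1)) := by
    intro n hn t ht
    have hn' : (1 : ℝ) ≤ n := by exact_mod_cast hn
    have hlog : 0 ≤ Real.log n := Real.log_nonneg hn'
    have h9 : 0 ≤ Real.log (288 * (2 * (K : ℝ) + 5)) := Real.log_nonneg (by
      have : (0 : ℝ) ≤ K := Nat.cast_nonneg K
      nlinarith)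
    have hfn := hf1 n hn
    have hpos : 0 ≤ f n * (Real.log n + 1) := by positivity
    have hC : 0 ≤ 144 * (q : ℝ) * (2 * K + 7) * (Real.log (288 * (2 * K + 5)) + 1) := by positivity
    cases t with
    | zero =>
      have h2 : Real.log (((F^[0] 0 : ℕ) : ℝ) + 2) ≤ 1 := by
        show Real.log (((0 : ℕ) : ℝ) + 2) ≤ 1
        rw [Nat.cast_zero, zero_add]
        have := Real.log_two_lt_d9
        linarith
      have h3 : 1 ≤ f n * (Real.log n + 1) := by nlinarith
      nlinarith [mul_nonneg hC hpos]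
    | succ m =>
      obtain ⟨l, j, hj, hm, hst'⟩ := hst m
      rw [hst']
      have hG : (τ.map^[l] [a]).length ≤ n := by omega
      have hfl : (l : ℝ) + ((τ.map^[l] (h :: u)).length : ℝ) ≤ f n ^ 2 := by
        rw [hrow]
        refine (hf l).trans ?_
        exact pow_le_pow_left₀ (hf0 _) (hmono hG) 2
      have hT1 : ((TT K l (Dp τ (h :: u) l) : ℕ) : ℝ) ≤ (2 * K + 5) * f n ^ 2 := by
        have h3 : TT K l (Dp τ (h :: u) l) ≤ (2 * K + 5) * (l + (τ.map^[l] (h :: u)).length) := by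
          unfold TT
          have h4 := hDp1 l
          have h5 := hrow1 l
          have h6 : 2 * K * Dp τ (h :: u) l ≤ 2 * K * (τ.map^[l] (h :: u)).length :=
            Nat.mul_le_mul_left _ h4
          nlinarith [Nat.zero_le (K * l)]
        calc ((TT K l (Dp τ (h :: u) l) : ℕ) : ℝ) ≤
              (((2 * K + 5) * (l + (τ.map^[l] (h :: u)).length) : ℕ) : ℝ) := by exact_mod_cast h3
          _ = (2 * K + 5) * ((l : ℝ) + ((τ.map^[l] (h :: u)).length : ℝ)) := by push_cast; ring
          _ ≤ _ := mul_le_mul_of_nonneg_left hfl (by positivity)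
      have hT2 : TT K l (Dp τ (h :: u) l) ≤ (2 * K + 5) * (τ.map^[l] [a]).length := by
        unfold TT
        have h4 := hDG l
        have h5 := hlG l
        have h6 : 2 * K * Dp τ (h :: u) l ≤ 2 * K * (τ.map^[l] [a]).length :=
          Nat.mul_le_mul_left _ h4
        nlinarith
      have hD : Dp τ (h :: u) l ≤ TT K l (Dp τ (h :: u) l) := by
        have h7 := hrowK l
        have h8 : 1 ≤ K := by rw [hKdef]; simp; omega
        have h9 : 1 * Dp τ (h :: u) l ≤ K * Dp τ (h :: u) l := Nat.mul_le_mul_right _ h8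
        unfold TT
        nlinarith
      have hj' : j ≤ TT K l (Dp τ (h :: u) l) := by
        have h7 := hrowK l
        unfold TT
        nlinarith
      have := log_pk hq (by positivity) hT1 hT2 hG hn hj' hD
      nlinarith
  obtain ⟨k, M, C', hM, hs⟩ := hgen S F L N e 0 w
    (fun n => (144 * q * (2 * K + 7) * (Real.log (288 * (2 * K + 5)) + 1) + 1) *
        (f n * (Real.log n + 1))) hF hL hLN
    (by
      intro t
      rw [hlist]
      exact map_range_isPre w t)
    (by
      intro n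
      refine ⟨n, ?_⟩
      rw [hlist]
      simp)
    (by
      intro n hn t ht
      rw [hlist, List.length_map, List.length_range] at ht
      exact key n hn t ht)
  refine ⟨k, M, C' * (144 * q * (2 * K + 7) * (Real.log (288 * (2 * K + 5)) + 1) + 1), hM, ?_⟩
  intro n hn
  rw [mul_assoc]
  exact hs n hn

end Pool.Agent.TH381.RM
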